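import Mathlib
import Pool.Agent.Helper11.CFinal

namespace Pool.Agent.Helper11.Kept.CuspidalPartIso

open Pool.Agent.Helper11

theorem result (N : ℕ) (hN : 0 < N) (α : Fin N → Fin 2 → ℤ) (β : Fin N → ℤ) (c Δ : ℤ)
    (hrk : ∀ i, ∃ j, hypDet α ![i, j] ≠ 0)
    (hgp : ∀ J k, hypDet α J ≠ 0 → (∀ m, J m ≠ k) → hypVal α β J k ≠ 0)
    (hΔ0 : Δ ≠ 0) (hΔ : ∀ J, hypDet α J ≠ 0 → hypDet α J ∣ Δ) (hΔc : Δ ^ (N + 1) ∣ c)
    (hc : (400 * N ^ 3) ^ 2 * |Δ| ^ (N + 1) ≤ |c|) (g : ℕ)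
    (hg : g + N = Fintype.card
      {e : Fin N × Fin N // e.1 < e.2 ∧ hypDet α ![e.1, e.2] ≠ 0} + 1) :
    IsDomain (HypRingQ α β c) ∧
    ∀ (K : Type) [Field K] [Algebra (HypRingQ α β c) K] [IsFractionRing (HypRingQ α β c) K],
      Module.rank ℚ (unitPart (HypRingQ α β c) K 2) = g ∧
      ∃ (m : ℕ) (R : Fin m → (KMQ K 2 →ₗ[ℚ] ℝ)), (∀ j, IsTorusRegulator (R j)) ∧
        ∀ (r : ℕ) (z : Fin r → unitPart (HypRingQ α β c) K 2), LinearIndependent ℚ z →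
          LinearIndependent ℝ fun a j => R j (z a) := by
  have hc0 : c ≠ 0 := by
    rintro rfl
    have h1 : (0 : ℤ) < (400 * N ^ 3) ^ 2 * |Δ| ^ (N + 1) := by
      have h2 : (0 : ℤ) < |Δ| := abs_pos.2 hΔ0
      have h3 : (0 : ℤ) < N := by exact_mod_cast hN
      positivity
    rw [abs_zero] at hc
    omega
  refine ⟨isDomain_hypRingQ hrk hgp hN hc0, ?_⟩
  intro K _ _ _
  obtain ⟨h1, R, hR, h2⟩ := crv_main hrk hN hgp hΔ0 hΔ hΔc hc hg (K := K)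
  refine ⟨h1, Fintype.card {J : Fin 2 → Fin N // hypDet α J ≠ 0},
    fun j => R ((Fintype.equivFin _).symm j), fun j => hR _, ?_⟩
  intro r z hz
  have h3 := h2 r z hz
  rw [Fintype.linearIndependent_iff] at h3 ⊢
  intro x hx
  refine h3 x ?_
  funext J
  have h4 := congrFun hx ((Fintype.equivFin _) J)
  simp only [Finset.sum_apply, Pi.smul_apply, Equiv.symm_apply_apply] at h4 ⊢
  exact h4

end Pool.Agent.Helper11.Kept.CuspidalPartIso
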