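import Mathlib
import Pool.Agent.ISG.Fin

namespace Pool.Agent.Results.MP_a09a03_nt.FullSupportIso

open Pool.Agent.ISG

theorem result (N : ℕ) (hN : 0 < N) (α : Fin N → Fin 2 → ℤ) (β : Fin N → ℤ) (c Δ : ℤ)
    (hrk : ∀ i, ∃ j, lineDet α i j ≠ 0)
    (hgp : ∀ i j k P, IsMeet α β i j P →
      (α k 0 : ℚ) * P 0 + (α k 1 : ℚ) * P 1 + (β k : ℚ) = 0 → k = i ∨ k = j)
    (hΔ0 : Δ ≠ 0) (hΔ : ∀ i j, lineDet α i j ≠ 0 → lineDet α i j ∣ Δ) (hΔc : Δ ^ (N + 1) ∣ c)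
    (hc : (400 * N ^ 3) ^ 2 * |Δ| ^ (N + 1) ≤ |c|) (g : ℕ)
    (hg : g + N = Fintype.card {e : Fin N × Fin N // e.1 < e.2 ∧ lineDet α e.1 e.2 ≠ 0} + 1)
    (t : ℕ) (a : Fin t → Fin 2 → ℤ) (e : Fin t → ℤ) (ha : ∀ i, a i ≠ 0)
    (hpar : ∀ i j, i ≠ j → a i 0 * a j 1 - a i 1 * a j 0 ≠ 0) (M : ℕ) (Λ : ℕ∞) (hΛ : Λ ≠ 0)
    (hα : ∀ i m, |α i m| ≤ M) (hβ : ∀ i, |β i| ≤ M) (haM : ∀ i m, |a i m| ≤ M)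
    (heM : ∀ i, |e i| ≤ M)
    (hM : t ≠ 0 → (∃ L : ℕ, Λ = L ∧ (10 * M * L : ℤ) ^ (10 * N ^ 3) ≤ |c|) ∨
      t = 1 ∧ 3 ≤ N ∧ |Δ| ^ 12 * (10 * M : ℤ) ^ (30 * N ^ 3) ≤ |c| ∧
        ∀ i, GenericForm α β Δ (a i)) :
    IsDomain (CrvRing α β c) ∧
    ∀ (K : Type) [Field K] [Algebra (CrvRing α β c) K] [IsFractionRing (CrvRing α β c) K],
      Module.rank ℚ (curvePart α β c K Λ a e) = g ∧
        RegulatorInjective (curvePart α β c K Λ a e) :=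
  gen _ (crvPoly_eq α β c)
    (main_hyp N hN α β c Δ hrk hgp hΔ0 hΔ hΔc hc g hg t a e ha hpar M Λ hΛ hα hβ haM heM hM)

end Pool.Agent.Results.MP_a09a03_nt.FullSupportIso
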