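import Mathlib
import Pool.Agent.Helper12.RQ.Main

namespace Pool.Agent.Helper11.Kept.RealQuadraticFields

open Pool.Agent.Helper11 NumberField

theorem result (F : Type) [Field F] [NumberField F] (u : 𝓞 F) (hu : u ∣ 16) (σ τ : F →+* ℝ)
    (hστ : σ u ≠ τ u) (K : Type) [Field K] [Algebra F K] (x y : K)
    (hK : IntermediateField.adjoin F {x, y} = ⊤) (hx : Transcendental F x)
    (h : (x - x⁻¹) * (y - y⁻¹) = algebraMap F K u) :
    ∃ a b X Y : Kˣ, (a : K) = x ∧ (b : K) = y ∧ (X : K) = (x - 1) / (x + 1) ∧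
      (Y : K) = (y - 1) / (y + 1) ∧ sym a b ∈ integralPart K ∧ sym X Y ∈ integralPart K ∧
      ∃ R : Fin 2 → (K2Q K →ₗ[ℚ] ℝ),
        (∀ i, ∃ γ : K →+* LoopRing, ∀ f g : Kˣ,
          R i (sym f g) = regInt (γ (f : K) : ℝ → ℂ) (γ (g : K) : ℝ → ℂ)) ∧
        R 0 (sym a b) * R 1 (sym X Y) ≠ R 0 (sym X Y) * R 1 (sym a b) :=
  Pool.Agent.Helper12.RQ.main F u hu σ τ hστ K x y hK hx h

end Pool.Agent.Helper11.Kept.RealQuadraticFields
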